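import Pool.Agent.H35.Q75.C1
import Pool.Agent.H35.Q75.R3

/-!
# The supercongruence modulo `p ^ 2` for `∑ binom(2k,k)^2 binom(3k,k) / (-8640)^k`

For every prime `p > 5` the sum `S p = ∑_{k<p} binom(2k,k)^2 binom(3k,k) / (-8640)^k` is congruent
modulo `p ^ 2` to

* `4 x ^ 2 - 2 p`, if `p = x ^ 2 + 3 y ^ 2` and `10 ^ ((p - 1) / 3) = 1` modulo `p`;
* `p - 2 x ^ 2 ± 6 x y`, if `p = x ^ 2 + 3 y ^ 2` and `10 ^ ((p - 1) / 3) = (-1 ∓ x / y) / 2`
  modulo `p`;
* `0`, if `p` is congruent to `2` modulo `3`.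

Method. With `c = (4 ± 9 / √5) / 216` one has `c (1 - 27 c) = -1 / 8640`, and a truncated Clausen
formula reduces the claim to the square of `∑_{k<p} binom(2k,k) binom(3k,k) c ^ k`. The elliptic curves
`y ^ 2 = x ^ 3 + (6 x + 16 ± 36 / √5) ^ 2` have complex multiplication by the order of discriminant
`-75`, of class number two. Explicit isogenies of degrees `3`, `7` and `19` give all isogenies
between these curves; the polynomial identities needed are verified by evaluation at one large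
integer. For `p` inert in `ℚ(√5)` and split in `ℚ(√-3)` one works over `ℤ_p[√5]` with an isogeny of
degree `p` between the conjugate curves. This gives `S p = A ^ 2 - 2 p` modulo `p ^ 2`, if
`4 p = A ^ 2 + 3 B ^ 2` and `5` divides `A B`. The cubic residue character of `10`, computed with
Gauss and Jacobi sums, determines which of the three representations `4 p = A ^ 2 + 3 B ^ 2`
satisfies this condition.
-/

set_option autoImplicit false

namespace Pool.Agent.Results.MP_5c57f5_nt.Conjecture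

open Pool.Agent.H35.Q75

/-- The sum `S_p`. -/
def S (p : ℕ) : ℚ :=
  ∑ k ∈ Finset.range p, ((Nat.choose (2 * k) k : ℚ) ^ 2 * (Nat.choose (3 * k) k : ℚ)) /
    (-8640 : ℚ) ^ k

/-- `r ≡ s` modulo `p ^ 2`: the rational number `(r - s) / p ^ 2` has denominator prime to `p`. -/
def CongrSq (p : ℕ) (r s : ℚ) : Prop := ((r - s) / (p : ℚ) ^ 2).den.Coprime p

theorem congr_of_cg {p : ℕ} (hp : p.Prime) {r s : ℚ} (h : Pool.Agent.H475R2.Cg p r s) :
    CongrSq p r s := by
  obtain ⟨q, hq, hd⟩ := h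
  have hp0 : (p : ℚ) ^ 2 ≠ 0 := pow_ne_zero 2 (by exact_mod_cast hp.ne_zero)
  unfold CongrSq
  rw [hq, mul_div_cancel_left₀ _ hp0]
  exact (Nat.Coprime.symm ((Nat.Prime.coprime_iff_not_dvd hp).2 hd))

theorem S_eq (p : ℕ) : S p = ∑ k ∈ Finset.range p, ((Pool.Agent.H475R2.u3 k : ℤ) : ℚ) /
    ((-8640 : ℤ) : ℚ) ^ k := by
  unfold S Pool.Agent.H475R2.u3
  apply Finset.sum_congr rfl
  intro k _
  push_cast
  norm_num

theorem main {p : ℕ} [hF : Fact p.Prime] (h5 : 5 < p) {tgt : ℤ}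
    (h : ∀ (mi : ℤ_[p]), -8640 * mi = 1 → (p : ℤ_[p]) ^ 2 ∣
      (∑ k ∈ Finset.range p, ((Pool.Agent.H475R2.u3 k : ℤ) : ℤ_[p]) * mi ^ k) - (tgt : ℤ_[p])) :
    CongrSq p (S p) tgt := by
  have hp := hF.out
  have hm : ¬ (p : ℤ) ∣ -8640 := by
    intro hd
    have h1 : p ∣ 8640 := by
      have := (dvd_neg (a := (p : ℤ)) (b := 8640)).1 hd
      exact_mod_cast this
    rw [show 8640 = 2 ^ 6 * 3 ^ 3 * 5 by norm_num] at h1
    rcases (Nat.Prime.dvd_mul hp).1 h1 with h2 | h2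
    · rcases (Nat.Prime.dvd_mul hp).1 h2 with h2 | h2
      · have := Nat.le_of_dvd (by norm_num) (hp.dvd_of_dvd_pow h2); omega
      · have := Nat.le_of_dvd (by norm_num) (hp.dvd_of_dvd_pow h2); omega
    · have := Nat.le_of_dvd (by norm_num) h2; omega
  obtain ⟨mi, hmi⟩ := (Pool.Agent.H475R2.isUnit_intCast hm).exists_right_inv
  apply congr_of_cg hp
  rw [S_eq]
  apply Pool.Agent.H475R2.to_rat hm hmi
  apply h mi
  push_cast at hmi
  exact hmi

theorem leg5 {p : ℕ} [hF : Fact p.Prime] (h5 : 5 < p) :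
    legendreSym p 5 = jacobiSym (p : ℕ) 5 := by
  have hp := hF.out
  have hq : jacobiSym (5 : ℕ) p = jacobiSym (p : ℕ) 5 :=
    jacobiSym.quadratic_reciprocity_one_mod_four (by norm_num) (hp.odd_of_ne_two (by omega))
  rw [← hq, jacobiSym.legendreSym.to_jacobiSym]
  rfl

/-- The common form of the two split cases. -/
theorem split {p : ℕ} [hF : Fact p.Prime] (h5 : 5 < p) (h3 : p % 3 = 1) {A B : ℤ}
    (hAB : 4 * (p : ℤ) = A ^ 2 + 3 * B ^ 2) (hd : (5 : ℤ) ∣ A * B) :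
    CongrSq p (S p) ((A ^ 2 - 2 * p : ℤ) : ℚ) := by
  have hp := hF.out
  have hp5 : p % 5 ≠ 0 := by
    intro h
    have := (Nat.prime_dvd_prime_iff_eq Nat.prime_five hp).1 (Nat.dvd_of_mod_eq_zero h)
    omega
  have h5p : Prime (5 : ℤ) := by norm_num
  rcases h5p.dvd_or_dvd hd with ⟨A', hA⟩ | ⟨B', hB⟩
  · -- `5 ∣ A`
    have hxy : 4 * (p : ℤ) = 3 * B ^ 2 + 25 * A' ^ 2 := by rw [hAB, hA]; ring
    have hm : (p % 5 = 2 ∨ p % 5 = 3) := by
      have h1 : (4 * (p : ℤ)) % 5 = (3 * B ^ 2) % 5 := by rw [hxy]; omega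
      have h2 : B % 5 = 0 ∨ B % 5 = 1 ∨ B % 5 = 2 ∨ B % 5 = 3 ∨ B % 5 = 4 := by omega
      rcases h2 with h | h | h | h | h <;>
        simp [pow_two, Int.mul_emod, h] at h1 <;> omega
    have hl : legendreSym p 5 = -1 := by
      rw [leg5 h5]
      rcases hm with h | h
      · rw [jacobiSym.mod_left, show ((p : ℤ) % ((5 : ℕ) : ℤ)) = 2 by omega]
        norm_num
      · rw [jacobiSym.mod_left, show ((p : ℤ) % ((5 : ℕ) : ℤ)) = 3 by omega]
        norm_num
    have e : A ^ 2 - 2 * p = 25 * A' ^ 2 - 2 * p := by rw [hA]; ring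
    rw [e]
    exact main h5 (fun mi hmi => caseB h5 h3 hl hxy hmi)
  · -- `5 ∣ B`
    have hxy : 4 * (p : ℤ) = A ^ 2 + 75 * B' ^ 2 := by rw [hAB, hB]; ring
    have hm : (p % 5 = 1 ∨ p % 5 = 4) := by
      have h1 : (4 * (p : ℤ)) % 5 = (A ^ 2) % 5 := by rw [hxy]; omega
      have h2 : A % 5 = 0 ∨ A % 5 = 1 ∨ A % 5 = 2 ∨ A % 5 = 3 ∨ A % 5 = 4 := by omega
      rcases h2 with h | h | h | h | h <;>
        simp [pow_two, Int.mul_emod, h] at h1 <;> omega
    have hl : legendreSym p 5 = 1 := by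
      rw [leg5 h5]
      rcases hm with h | h
      · rw [jacobiSym.mod_left, show ((p : ℤ) % ((5 : ℕ) : ℤ)) = 1 by omega]
        norm_num
      · rw [jacobiSym.mod_left, show ((p : ℤ) % ((5 : ℕ) : ℤ)) = 4 by omega]
        norm_num
    have hsq : IsSquare ((5 : ℤ) : ZMod p) := by
      by_contra hns
      have := (legendreSym.eq_neg_one_iff p).2 hns
      rw [this] at hl
      norm_num at hl
    exact main h5 (fun mi hmi => caseA h5 h3 hsq hxy hmi)

/-- The answer to the question, for all primes `p > 5`. -/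
theorem result (p : ℕ) [Fact p.Prime] (h5 : 5 < p) :
    (p % 3 = 1 → ∀ x y : ℤ, (p : ℤ) = x ^ 2 + 3 * y ^ 2 →
      ((10 : ZMod p) ^ ((p - 1) / 3) = 1 → CongrSq p (S p) ((4 * x ^ 2 - 2 * p : ℤ) : ℚ)) ∧
      ((10 : ZMod p) ^ ((p - 1) / 3) = (-1 - (x : ZMod p) / (y : ZMod p)) / 2 →
        CongrSq p (S p) ((p - 2 * x ^ 2 + 6 * x * y : ℤ) : ℚ)) ∧
      ((10 : ZMod p) ^ ((p - 1) / 3) = (-1 + (x : ZMod p) / (y : ZMod p)) / 2 →
        CongrSq p (S p) ((p - 2 * x ^ 2 - 6 * x * y : ℤ) : ℚ))) ∧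
    (p % 3 = 2 → CongrSq p (S p) 0) := by
  have hp : p.Prime := Fact.out
  have hpZ : Prime (p : ℤ) := Nat.prime_iff_prime_int.1 hp
  refine ⟨?_, ?_⟩
  · intro h3 x y hxy
    have hy : (y : ZMod p) ≠ 0 := by
      intro h0
      have hd := (ZMod.intCast_zmod_eq_zero_iff_dvd _ _).1 h0
      obtain ⟨k, hk⟩ := hd
      have h1 : (p : ℤ) ∣ x ^ 2 := ⟨1 - 3 * k * y, by linear_combination -hxy - 3 * y * hk⟩
      obtain ⟨l, hl⟩ := hpZ.dvd_of_dvd_pow h1
      have h2 : (p : ℤ) * 1 = p * (p * (l ^ 2 + 3 * k ^ 2)) := by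
        rw [mul_one]
        conv_lhs => rw [hxy, hl, hk]
        ring
      have h3 := mul_left_cancel₀ hpZ.ne_zero h2
      have h4 : (p : ℤ) ∣ 1 := ⟨_, h3⟩
      exact hpZ.not_dvd_one h4
    have n2 : (2 : ZMod p) ≠ 0 := by
      have : ((2 : ℕ) : ZMod p) ≠ 0 := by
        rw [Ne, ZMod.natCast_eq_zero_iff]
        intro hd
        have := Nat.le_of_dvd (by norm_num) hd
        omega
      exact_mod_cast this
    have n4 : (4 : ZMod p) ≠ 0 := by
      rw [show (4 : ZMod p) = 2 * 2 by norm_num]; exact mul_ne_zero n2 n2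
    have hxyp : (x : ZMod p) ^ 2 + 3 * (y : ZMod p) ^ 2 = 0 := by
      have := congrArg (fun z : ℤ => (z : ZMod p)) hxy
      push_cast at this
      rw [ZMod.natCast_self] at this
      exact this.symm
    obtain ⟨q, hq⟩ : ∃ q : ZMod p, q = (x : ZMod p) / y := ⟨_, rfl⟩
    have hq1 : q * y = x := by rw [hq, div_mul_cancel₀ _ hy]
    have hq2 : q ^ 2 = -3 := by
      apply mul_right_cancel₀ (pow_ne_zero 2 hy)
      linear_combination (q * y + x) * hq1 + hxyp
    rw [← hq]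
    have key : ∀ (y' : ℤ) (q' : ZMod p), (p : ℤ) = x ^ 2 + 3 * y' ^ 2 → q' * y' = x → q' ^ 2 = -3 →
        ((10 : ZMod p) ^ ((p - 1) / 3) = 1 → (5 : ℤ) ∣ x * y') ∧
        ((10 : ZMod p) ^ ((p - 1) / 3) = (-1 - q') / 2 → (5 : ℤ) ∣ (x - y') * (x + 3 * y')) := by
      intro y' q' h1 h2 h3'
      obtain ⟨w, hw⟩ : ∃ w : ZMod p, w = (-1 - q') / 2 := ⟨_, rfl⟩
      have hw2 : 2 * w = -1 - q' := by rw [hw, mul_div_cancel₀ _ n2]
      rw [← hw]
      refine cubic10 h5 h3 h1 ?_ ?_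
      · apply mul_left_cancel₀ n4
        linear_combination (2 * w + 1 - q') * hw2 + h3'
      · linear_combination y' * hw2 - h2
    obtain ⟨k1, k2⟩ := key y q hxy hq1 hq2
    obtain ⟨-, k3⟩ := key (-y) (-q) (by rw [hxy]; ring) (by push_cast; linear_combination hq1)
      (by linear_combination hq2)
    refine ⟨?_, ?_, ?_⟩
    · intro h
      have h1 := split h5 h3 (A := 2 * x) (B := 2 * y) (by rw [hxy]; ring) (by
        have := k1 h
        have e : 2 * x * (2 * y) = 4 * (x * y) := by ring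
        rw [e]
        exact this.mul_left 4)
      have e : (2 * x) ^ 2 - 2 * (p : ℤ) = 4 * x ^ 2 - 2 * p := by ring
      rwa [e] at h1
    · intro h
      have h1 := split h5 h3 (A := x + 3 * y) (B := x - y) (by rw [hxy]; ring) (by
        rw [mul_comm]; exact k2 h)
      have e : (x + 3 * y) ^ 2 - 2 * (p : ℤ) = p - 2 * x ^ 2 + 6 * x * y := by rw [hxy]; ring
      rwa [e] at h1
    · intro h
      have h1 := split h5 h3 (A := x - 3 * y) (B := x + y) (by rw [hxy]; ring) (by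
        have h4 := k3 (by rw [h]; ring)
        have e : (x - 3 * y) * (x + y) = (x - -y) * (x + 3 * -y) := by ring
        rw [e]; exact h4)
      have e : (x - 3 * y) ^ 2 - 2 * (p : ℤ) = p - 2 * x ^ 2 - 6 * x * y := by rw [hxy]; ring
      rwa [e] at h1
  · intro h3
    have key := main h5 (tgt := 0) (fun mi hmi => by
      rw [Int.cast_zero, sub_zero]
      exact inert h5 h3 hmi)
    rw [Int.cast_zero] at key
    exact key

end Pool.Agent.Results.MP_5c57f5_nt.Conjecture
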